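import Pool.Agent.H367.OS.OCut
import Mathlib

/-!
# The mu-invariant for totally real fields and one double sequence of totally real number fields

A relation `r` of size `m` is one of the equations `x_i x_j = x_l`, `x_i + x_j = x_l`, `x_i = 1` with
`i, j, l < m`; the relations are numbered, the number of `r` is `ν(r)` (`relNum`). Let `G_m` be the
following polynomial with integral coefficients (`univG ℤ m`). There are variables `x_i` and `z_ij` for
`i, j < m`, a variable `c_r` for every relation `r`, and variables `y_{r,l}` for all relations `r` and
`l < (m + 1) 2 ^ ν(r)`. The equations (`eqnG`) are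

  `z_ij - x_i x_j`,  `c_r ^ 2 - c_r`,  `c_r ρ_r`,  `(1 - c_r) y_{r,l}`,

where `ρ_r` is the linear polynomial `z_ij - x_l`, `x_i + x_j - x_l` or `x_i - 1` of the relation.
`G_m` is the sum of the equations multiplied by further variables `t_e`, one for each equation. It has
degree three. Let `C_m` be the affine cubic hypersurface `G_m = 1` (`cubG R m` over the ring `R`); it is
smooth over the integers.

Let `M` be the category of motives over `ℚ` in the sense of André, a semisimple abelian category with
Tate twists `N ↦ N(a)`. For a separated scheme `X` of finite type over `ℚ` let `D.G w j X = Gr^W_w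
H^j_c(X)` be the part of weight `w` of the cohomology with compact supports, a motive over `ℚ`; for
smooth projective `Y` it is `h^j(Y)` if `j = w`, and zero otherwise. The motives `h^0(Y)` and their
direct factors are the Artin motives over `ℚ` (representations of `Gal(ℚ̄/ℚ)` over `ℚ` with finite
image).

Let `E_m` be the number of the equations, and for `N ∈ ℕ` let `e = (m + 1) N + E_m - 1`
(`esh m N`). Let `V_{m,N}` be the
motive `Gr^W_{2e} H^{2e+1}_c(C_m)(e)` (`single0 D m N`).

For a motive `N` let `cut N` be the fixed field of the kernel of the action of `Gal(ℚ̄/ℚ)` on an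
ℓ-adic realization of `N` (a Galois extension of `ℚ` in `ℚ̄`; for Artin motives it is a number field
which does not depend on `ℓ`; the field of `h^0(Spec L)` is the Galois closure of `L`; hypotheses
`CutsOut`). Let `F_{m,N}` be the field cut out by the Artin motive `V_{m,N}` (`numField`), and
`F^+_{m,N}` its largest totally real subfield (`realField`; `totReal` is the field of all totally real
algebraic numbers).

Let `Mu p E` be the statement `μ_p(E) = 0` of the question, for the odd prime `p` and the totally real
number field `E`. It passes to subfields: for `E ⊆ E'` the image of the restriction map `X_Σ(E') →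
X_Σ(E)` is of finite index, and `μ_p = 0` says that `X_Σ` is finitely generated over `ℤ_p` (hypothesis
`hμ`).

**Theorem.**
(1) For `m ≥ 1` the fields `F^+_{m,N}` are totally real Galois extensions of `ℚ` of finite degree. Every
totally real number field in `ℚ̄` is contained in `F^+_{m,N}` for all large `m` and some `N`.

(2) The question for `p` has a positive answer for all totally real number fields if and only if for
infinitely many `m` one has `μ_p(F^+_{m,N}) = 0` for all `N`. The same for all odd primes `p` at once.

(3) For every totally real number field `E` and all large `m` there is an `N` such that for all odd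
primes `p` the statement `μ_p(F^+_{m,N}) = 0` for the single field `F^+_{m,N}` implies `μ_p(E) = 0`.

(4) `G_m` has integral coefficients and degree at most three, and `C_m` is smooth over all rings.

The hypotheses on the motives are standard (`IsMot`): exact sequences, affine bundles, disjoint unions,
the cohomology of affine spaces, the weights of `H^j_c(X)` are between `0` and `2 dim X`, monomorphisms
split, `Gr^W_w H^j_c(X)` is a direct factor of `h^w(Y)` for some smooth projective `Y` (it is a
subquotient, by the weight spectral sequence), and every smooth projective scheme has an affine bundle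
whose total space is affine (Jouanolou).

Idea of the proof. The projection of `C_m` to the affine space with the coordinates `x, z, c, y` is an
affine bundle over the complement of the zero set `W_m` of the equations. The scheme `W_m` is the
disjoint union, over all sets `s` of relations (`c_r = 1` for `r ∈ s` and `c_r = 0` for the others), of
the products `X_s × 𝔸 ^ ((m + 1) N(s))`, where `X_s` is the affine scheme defined by the relations in
`s` and `N(s) = ∑_{r ∈ s} 2 ^ ν(r)`. The numbers `N(s)` are different, and the dimension of `X_s` is at
most `m`. So the invariant of `W_m` with the index `q + (m + 1) N(s)`, `0 ≤ q ≤ m`, is the invariant of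
`X_s` with the index `q`; the other components do not contribute. Every affine scheme of finite type
over a prime field is an `X_s`, for all large `m`.

The universal system of relations is the one of helper854 (`Pool.Agent.H854.SQ`).
-/

set_option autoImplicit false

open CategoryTheory CategoryTheory.Limits AlgebraicGeometry Pool.Agent.Y116.UV Pool.Agent.Z125.UN
  Pool.Agent.Q193.LT Pool.Agent.H854.SQ Pool.Agent.H367.OS

universe v u



namespace Pool.Agent.Results.MP_4e64b4_nt.PiecesOfOneSequence

/-- **The mu-invariant for totally real fields and one double sequence of totally real number fields.**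
See the explanations above. -/
theorem result {M : Type u} [Category.{v} M] [Abelian M] {D : Pieces ℚ M} (h : IsMot D)
    {cut : M → AlgField} (hc : CutsOut D cut) {Mu : ℕ → AlgField → Prop}
    (hμ : ∀ (p : ℕ), p.Prime → p ≠ 2 → ∀ E E' : AlgField, OfFiniteDegree E' → E' ≤ totReal →
      E ≤ E' → Mu p E' → Mu p E) :
    ((∀ m, 1 ≤ m → ∀ N : ℕ, OfFiniteDegree (realField D cut m N) ∧
        IsNormal (realField D cut m N) ∧ realField D cut m N ≤ totReal) ∧
      ∀ E : AlgField, OfFiniteDegree E → E ≤ totReal → ∀ᶠ m in Filter.atTop, ∃ N : ℕ,
        E ≤ realField D cut m N) ∧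
    (∀ (p : ℕ), p.Prime → p ≠ 2 → ((∀ E : AlgField, OfFiniteDegree E → E ≤ totReal → Mu p E) ↔
      ∃ᶠ m in Filter.atTop, ∀ N : ℕ, Mu p (realField D cut m N))) ∧
    ((∀ (p : ℕ), p.Prime → p ≠ 2 → ∀ E : AlgField, OfFiniteDegree E → E ≤ totReal → Mu p E) ↔
      ∃ᶠ m in Filter.atTop, ∀ (N p : ℕ), p.Prime → p ≠ 2 → Mu p (realField D cut m N)) ∧
    (∀ E : AlgField, OfFiniteDegree E → E ≤ totReal → ∀ᶠ m in Filter.atTop, ∃ N : ℕ,
      ∀ (p : ℕ), p.Prime → p ≠ 2 → Mu p (realField D cut m N) → Mu p E) ∧
    ∀ m : ℕ, (univG ℤ m).totalDegree ≤ 3 ∧
      ∀ (R : Type) [CommRing R], MvPolynomial.map (Int.castRingHom R) (univG ℤ m) = univG R m ∧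
        Smooth (cubG R m).hom := by
  obtain ⟨_, h2, _, h3⟩ := fields h hc
  have h4 : ∀ E : AlgField, OfFiniteDegree E → E ≤ totReal → ∀ᶠ m in Filter.atTop, ∃ N : ℕ,
      ∀ (p : ℕ), p.Prime → p ≠ 2 → Mu p (realField D cut m N) → Mu p E := by
    intro E hE hr
    filter_upwards [h3 E hE hr, Filter.eventually_ge_atTop 1] with m hm hm1
    obtain ⟨N, hN⟩ := hm
    exact ⟨N, fun p hp hp2 g => hμ p hp hp2 _ _ (h2 m hm1 N).1 (h2 m hm1 N).2.2 hN g⟩
  refine ⟨⟨h2, h3⟩, fun p hp hp2 =>
    decides_real h hc fun L L' hL' hr hL g => hμ p hp hp2 L L' hL' hr hL g, ?_, h4, cubG_facts⟩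
  have h5 := decides_real h hc (P := fun F => ∀ (p : ℕ), p.Prime → p ≠ 2 → Mu p F)
    fun L L' hL' hr hL g p hp hp2 => hμ p hp hp2 L L' hL' hr hL (g p hp hp2)
  exact Iff.trans ⟨fun g F hF hr p hp hp2 => g p hp hp2 F hF hr,
    fun g p hp hp2 F hF hr => g F hF hr p hp hp2⟩ h5

end Pool.Agent.Results.MP_4e64b4_nt.PiecesOfOneSequence
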